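import Pool.Agent.RHO.Stmts3

/-!
# MP_ca8ef3_an, row MAX of table ca0
-/

set_option autoImplicit false

namespace Pool.Agent.RHO.H53c

open Finset Pool.Agent.RHO

section
variable {ι : Type} [Fintype ι] [DecidableEq ι]

theorem pr_add (a b f : Fn ι) : pr (a + b) f = pr a f + pr b f := by
  simp only [pr, Pi.add_apply, add_mul, Finset.sum_add_distrib]

theorem van_add {a b : Fn ι} {d : ℕ} (ha : Van a d) (hb : Van b d) : Van (a + b) d := by
  intro f hf
  rw [pr_add, ha f hf, hb f hf, add_zero]

/-- the map with one more coordinate -/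
def ext1 {h : ℕ} (π : Pt ι →ₗ[ZMod 2] Pt (Fin h)) (i : ι) : Pt ι →ₗ[ZMod 2] Pt (Fin (h + 1)) where
  toFun z := Fin.cons (z i) (π z)
  map_add' := by
    intro x y
    ext j
    refine Fin.cases ?_ (fun j => ?_) j
    · simp
    · simp
  map_smul' := by
    intro c x
    ext j
    refine Fin.cases ?_ (fun j => ?_) j
    · simp
    · simp

theorem ext1_eq {h : ℕ} (π : Pt ι →ₗ[ZMod 2] Pt (Fin h)) (i : ι) (z : Pt ι)
    (c : ZMod 2) (v : Pt (Fin h)) :
    ext1 π i z = (Fin.cons c v : Pt (Fin (h + 1))) ↔ z i = c ∧ π z = v := by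
  constructor
  · intro hh
    have h0 := congrFun hh 0
    have h1 : ∀ j : Fin h, ext1 π i z j.succ = (Fin.cons c v : Pt (Fin (h + 1))) j.succ :=
      fun j => congrFun hh j.succ
    refine ⟨by simpa [ext1] using h0, ?_⟩
    funext j
    have := h1 j
    simpa [ext1] using this
  · rintro ⟨rfl, rfl⟩
    rfl

theorem zmod2_cases (c : ZMod 2) : c = 0 ∨ c = 1 := by
  revert c; decide

theorem cel_ext1_one {h : ℕ} (π : Pt ι →ₗ[ZMod 2] Pt (Fin h)) (i : ι) (v : Pt (Fin h)) :
    cel (ext1 π i) (Fin.cons 1 v : Pt (Fin (h + 1))) = cel π v * fun z => z i := by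
  funext z
  simp only [cel, Pi.mul_apply, ext1_eq]
  rcases zmod2_cases (z i) with hz | hz
  · simp [hz]
  · simp [hz]

theorem cel_ext1_zero {h : ℕ} (π : Pt ι →ₗ[ZMod 2] Pt (Fin h)) (i : ι) (v : Pt (Fin h)) :
    cel (ext1 π i) (Fin.cons 0 v : Pt (Fin (h + 1))) = cel π v * fun z => z i + 1 := by
  funext z
  simp only [cel, Pi.mul_apply, ext1_eq]
  rcases zmod2_cases (z i) with hz | hz
  · simp [hz]
  · simp only [hz]
    have : (1 : ZMod 2) + 1 = 0 := by decide
    simp [this]

end

theorem max_aux (hprj : PRJStmt) : MAXStmt := by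
  intro ι _ _ k d t h τ hlow hk ht
  classical
  let NZ : ∀ {n : ℕ}, (Pt ι →ₗ[ZMod 2] Pt (Fin n)) → Finset (Pt (Fin n)) := fun π =>
    univ.filter fun v => ¬ Van (τ * cel π v) (k - 1)
  have hmem : ∀ {n : ℕ} (π : Pt ι →ₗ[ZMod 2] Pt (Fin n)) (v : Pt (Fin n)),
      v ∈ NZ π ↔ ¬ Van (τ * cel π v) (k - 1) := by
    intro n π v
    simp [NZ]
  have hfin : Finite (Pt ι →ₗ[ZMod 2] Pt (Fin h)) :=
    Finite.of_injective (fun f : Pt ι →ₗ[ZMod 2] Pt (Fin h) => (f : Pt ι → Pt (Fin h)))
      DFunLike.coe_injective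
  obtain ⟨π, hπ⟩ := Finite.exists_max fun π : Pt ι →ₗ[ZMod 2] Pt (Fin h) => (NZ π).card
  refine ⟨π, fun u hu i => ?_⟩
  by_contra hcon
  rw [not_or] at hcon
  obtain ⟨hc1, hc0⟩ := hcon
  -- nonzero cells of the extended map
  have hone : ∀ v, (Fin.cons 1 v : Pt (Fin (h + 1))) ∈ NZ (ext1 π i) ↔
      ¬ Van (τ * cel π v * fun z => z i) (k - 1) := by
    intro v
    rw [hmem, cel_ext1_one, mul_assoc]
  have hzero : ∀ v, (Fin.cons 0 v : Pt (Fin (h + 1))) ∈ NZ (ext1 π i) ↔
      ¬ Van (τ * cel π v * fun z => z i + 1) (k - 1) := by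
    intro v
    rw [hmem, cel_ext1_zero, mul_assoc]
  have hex : ∀ v, ∃ c : ZMod 2, v ∈ NZ π → (Fin.cons c v : Pt (Fin (h + 1))) ∈ NZ (ext1 π i) := by
    intro v
    by_contra hno
    push Not at hno
    have h1 := hno 1
    have h0 := hno 0
    rw [hone] at h1
    rw [hzero] at h0
    have hv := (hmem π v).1 h1.1
    apply hv
    have e1 : τ * cel π v = (τ * cel π v * fun z => z i) + (τ * cel π v * fun z => z i + 1) := by
      funext z
      simp only [Pi.add_apply, Pi.mul_apply]
      have e2 : (z i : ZMod 2) + (z i + 1) = 1 := by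
        rcases zmod2_cases (z i) with hz | hz
        · rw [hz]; decide
        · rw [hz]; decide
      rw [← mul_add, e2, mul_one]
    rw [e1]
    exact van_add (not_not.1 h1.2) (not_not.1 h0.2)
  choose c hc using hex
  set S := NZ (ext1 π i) with hS
  have hScard : S.card ≤ t := hlow.few (h + 1) hk (ext1 π i) S fun v hv => (hmem _ v).1 hv
  have hSn : (NZ π).card + 1 ≤ S.card := by
    have hinj : Function.Injective fun v : Pt (Fin h) => (Fin.cons (c v) v : Pt (Fin (h + 1))) := by
      intro v w hvw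
      have := congrArg Fin.tail hvw
      simpa using this
    have hnot : (Fin.cons (c u + 1) u : Pt (Fin (h + 1))) ∉
        (NZ π).image fun v => (Fin.cons (c v) v : Pt (Fin (h + 1))) := by
      intro hm
      obtain ⟨v, _, hv⟩ := Finset.mem_image.1 hm
      have h1 : v = u := by
        have := congrArg Fin.tail hv
        simpa using this
      rw [h1] at hv
      have h2 := congrFun hv 0
      simp only [Fin.cons_zero] at h2
      have : ∀ x : ZMod 2, x ≠ x + 1 := by decide
      exact this _ h2
    have hcard : (insert (Fin.cons (c u + 1) u : Pt (Fin (h + 1)))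
        ((NZ π).image fun v => (Fin.cons (c v) v : Pt (Fin (h + 1))))).card =
        (NZ π).card + 1 := by
      rw [Finset.card_insert_of_notMem hnot, Finset.card_image_of_injective _ hinj]
    rw [← hcard]
    refine Finset.card_le_card ?_
    intro w hw
    rcases Finset.mem_insert.1 hw with hw | hw
    · rw [hw]
      have hall : ∀ x : ZMod 2, (Fin.cons x u : Pt (Fin (h + 1))) ∈ S := by
        intro x
        rcases zmod2_cases x with hx | hx
        · rw [hx, hS, hzero]; exact hc0
        · rw [hx, hS, hone]; exact hc1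
      exact hall _
    · obtain ⟨v, hv, rfl⟩ := Finset.mem_image.1 hw
      exact hc v hv
  -- a vector which is not a difference
  have hexe : ∃ e : Pt (Fin (h + 1)), e ∉ insert 0 (Finset.image₂ (· + ·) S S) := by
    by_contra hno
    push Not at hno
    have h1 : (univ : Finset (Pt (Fin (h + 1)))) ⊆ insert 0 (Finset.image₂ (· + ·) S S) :=
      fun e _ => hno e
    have h2 := Finset.card_le_card h1
    have h3 : (univ : Finset (Pt (Fin (h + 1)))).card = 2 ^ (h + 1) := by
      rw [Finset.card_univ, Fintype.card_fun, ZMod.card, Fintype.card_fin]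
    have h4 : (insert 0 (Finset.image₂ (· + ·) S S)).card ≤ S.card * S.card + 1 :=
      (Finset.card_insert_le _ _).trans (Nat.add_le_add_right (Finset.card_image₂_le _ _ _) 1)
    have h5 : S.card * S.card ≤ t ^ 2 := by
      rw [pow_two]; exact Nat.mul_le_mul hScard hScard
    have h6 : 2 ^ (h + 1) = 2 * 2 ^ h := by ring
    have h7 : 1 ≤ 2 ^ h := Nat.one_le_two_pow
    omega
  obtain ⟨e, he⟩ := hexe
  have he0 : e ≠ 0 := fun hh => he (by rw [hh]; exact Finset.mem_insert_self _ _)
  have heS : ∀ v ∈ S, ∀ w ∈ S, v + w ≠ e := by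
    intro v hv w hw hvw
    apply he
    rw [← hvw]
    exact Finset.mem_insert_of_mem (Finset.mem_image₂_of_mem hv hw)
  obtain ⟨P, hPe, hP⟩ := hprj h e he0
  have hself : ∀ x : Pt (Fin (h + 1)), x + x = 0 := by
    intro x
    funext j
    have : ∀ y : ZMod 2, y + y = 0 := by decide
    exact this (x j)
  have hcell : ∀ v, cel (P.comp (ext1 π i)) (P v) = cel (ext1 π i) v + cel (ext1 π i) (v + e) := by
    intro v
    funext z
    simp only [cel, Pi.add_apply, LinearMap.comp_apply]
    by_cases h1 : ext1 π i z = v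
    · have h2 : ext1 π i z ≠ v + e := by
        rw [h1]
        intro h3
        apply he0
        have : v + v = v + (v + e) := congrArg (v + ·) h3
        rw [← add_assoc, hself, zero_add] at this
        exact this.symm
      rw [if_pos (by rw [h1]), if_pos h1, if_neg h2, add_zero]
    · by_cases h2 : ext1 π i z = v + e
      · rw [if_pos (by rw [h2, map_add, hPe, add_zero]), if_neg h1, if_pos h2, zero_add]
      · rw [if_neg, if_neg h1, if_neg h2, add_zero]
        intro h3
        rcases hP _ _ h3 with h4 | h4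
        · exact h1 h4
        · exact h2 h4
  have hsub : S.image P ⊆ NZ (P.comp (ext1 π i)) := by
    intro w hw
    obtain ⟨v, hv, rfl⟩ := Finset.mem_image.1 hw
    rw [hmem]
    intro hvan
    have hv' := (hmem _ v).1 hv
    apply hv'
    have hve : Van (τ * cel (ext1 π i) (v + e)) (k - 1) := by
      by_contra hne
      have h1 : v + e ∈ S := (hmem _ _).2 hne
      have h2 := heS v hv (v + e) h1
      apply h2
      rw [← add_assoc, hself, zero_add]
    have h3 : τ * cel (ext1 π i) v = τ * cel (P.comp (ext1 π i)) (P v) +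
        τ * cel (ext1 π i) (v + e) := by
      rw [hcell, mul_add]
      funext z
      simp only [Pi.add_apply]
      have : ∀ x y : ZMod 2, x = x + y + y := by decide
      exact this _ _
    rw [h3]
    exact van_add hvan hve
  have hinjP : Set.InjOn P (S : Set (Pt (Fin (h + 1)))) := by
    intro v hv w hw hvw
    rcases hP v w hvw with h1 | h1
    · exact h1
    · exfalso
      refine heS v hv w hw ?_
      rw [h1, add_comm w e, add_assoc, hself, add_zero]
  have hfinal := hπ (P.comp (ext1 π i))
  have h8 := Finset.card_le_card hsub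
  rw [Finset.card_image_of_injOn hinjP] at h8
  have h9 : (NZ (P.comp (ext1 π i))).card ≤ (NZ π).card := hfinal
  omega

theorem max (_ : RMBStmt) (hprj : PRJStmt) : MAXStmt := max_aux hprj

end Pool.Agent.RHO.H53c
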